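import Pool.Agent.R401.Tr6

/-!
# Local Euler factors of varieties with mostly supersingular reductions

Let `K` be a number field (for example `ℚ`) and `V_ℓ`, for all primes `ℓ`, the cohomology groups
`H^w(X ⊗ K̄, ℚ_ℓ)` of a smooth projective variety `X` over `K`, of dimension `n > 0`. At the places
`v` of good reduction the trace `a_v` of the geometric Frobenius elements on `V_ℓ` is an integer
which does not depend on `ℓ`, and `a_v ^ 2 ≤ n ^ 2 N(v) ^ w` (Deligne). This is all we use.

Suppose that `N(v) ^ w` divides `a_v ^ 2` (so `N(v) ^ (w / 2)` divides `a_v`, if `w` is even) for the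
places `v` in a set of upper density larger than `1 - 1 / n ^ 2`, for instance because the Newton
polygon of `H^w` of the reduction is supersingular there. Then `w` is even, and at *every* finite
place `v`, of good or of bad reduction, the local factor `det (1 - F_v T | V_ℓ ^ I_v)` has
coefficients in `ℤ` and is the same polynomial for all `ℓ` which are not below `v`.

The representations `V_ℓ` are not assumed to be semisimple, nor de Rham at the places above `ℓ`,
and nothing is assumed at the places of bad reduction.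

Proof. Chebotarev's theorem for closed sets, Burnside's counting argument and the trace form show
that the traces of the twists `V_ℓ (w / 2)` are constant on the cosets of an open subgroup `U`,
which is independent of `ℓ`. So `U` acts unipotently; by the tame relation the inertia groups in
`U` act trivially. The traces of the powers of `F_v` on the inertia invariants are averages of
traces on `V_ℓ`, which are rational and independent of `ℓ`; they determine the local factor by
Newton's identities. The matrix of `F_v` is integral over `ℤ`.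
-/

set_option autoImplicit false

namespace Pool.Agent.Results.MP_898f40_nt.MostlySupersingular

open NumberField IsDedekindDomain Filter Matrix Polynomial

/-- the absolute Galois group of the field `K`, with the Krull topology -/
abbrev AbsGal (K : Type) [Field K] : Type := Gal(AlgebraicClosure K/K)

section
variable {K : Type} [Field K]

/-- `g` belongs to the inertia group at the ideal `Q` of the ring of all algebraic integers. -/
def InInertia (Q : Ideal (𝓞 (AlgebraicClosure K))) (g : AbsGal K) : Prop :=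
  ∀ x : 𝓞 (AlgebraicClosure K), g • x - x ∈ Q

/-- `g` is an arithmetic Frobenius element at `Q`, for a residue field with `q` elements of the
place below `Q`. -/
def FrobeniusAt (Q : Ideal (𝓞 (AlgebraicClosure K))) (q : ℕ) (g : AbsGal K) : Prop :=
  ∀ x : 𝓞 (AlgebraicClosure K), g • x - x ^ q ∈ Q

/-- `Q` is a maximal ideal of the ring of all algebraic integers which lies above the finite
place `v` of `K`. -/
def LiesAbove [NumberField K] (v : HeightOneSpectrum (𝓞 K))
    (Q : Ideal (𝓞 (AlgebraicClosure K))) : Prop :=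
  Q.IsMaximal ∧ Q.comap (algebraMap (𝓞 K) (𝓞 (AlgebraicClosure K))) = v.asIdeal

/-- the matrix of `g` -/
noncomputable def mat {F : Type} [Field F] {n : ℕ} (ρ : AbsGal K →* GL (Fin n) F) (g : AbsGal K) :
    Matrix (Fin n) (Fin n) F :=
  (ρ g : GL (Fin n) F)

/-- the vectors which are fixed by the inertia group at `Q` -/
def invariants {F : Type} [Field F] {n : ℕ} (ρ : AbsGal K →* GL (Fin n) F)
    (Q : Ideal (𝓞 (AlgebraicClosure K))) : Submodule F (Fin n → F) where
  carrier := {x | ∀ g, InInertia Q g → mat ρ g *ᵥ x = x}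
  add_mem' := by
    intro x y hx hy g hg
    rw [Matrix.mulVec_add, hx g hg, hy g hg]
  zero_mem' := by
    intro g _
    rw [Matrix.mulVec_zero]
  smul_mem' := by
    intro c x hx g hg
    rw [Matrix.mulVec_smul, hx g hg]

/-- `f` is the polynomial `det (1 - g T)` of `g` on the invariants of the inertia group at `Q`: if
`A` is the matrix of `g` with respect to a basis `b` of the invariants then `f = det (1 - A T)`. -/
def IsLocalFactor {F : Type} [Field F] {n : ℕ} (ρ : AbsGal K →* GL (Fin n) F)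
    (Q : Ideal (𝓞 (AlgebraicClosure K))) (g : AbsGal K) (f : F[X]) : Prop :=
  ∃ (m : ℕ) (b : Module.Basis (Fin m) F (invariants ρ Q)) (A : Matrix (Fin m) (Fin m) F),
    (∀ j, mat ρ g *ᵥ (b j : Fin n → F) = ∑ i, A i j • (b i : Fin n → F)) ∧
    f = (1 - (X : F[X]) • A.map C).det

end

/-- **Local factors of mostly supersingular cohomology groups.** -/
theorem result {K : Type} [Field K] [NumberField K] {n : ℕ} (hn : 0 < n)
    (V : ∀ (ℓ : ℕ) [Fact ℓ.Prime], AbsGal K →* GL (Fin n) ℚ_[ℓ])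
    (hV : ∀ (ℓ : ℕ) [Fact ℓ.Prime], Continuous (V ℓ)) (w : ℕ)
    -- the places of bad reduction, and the traces at the other places
    (B : Set (HeightOneSpectrum (𝓞 K))) (hB : B.Finite) (a : HeightOneSpectrum (𝓞 K) → ℤ)
    (htr : ∀ (ℓ : ℕ) [Fact ℓ.Prime], ∀ v, v ∉ B → (ℓ : 𝓞 K) ∉ v.asIdeal → ∀ Q, LiesAbove v Q →
      ∀ g, FrobeniusAt Q (Ideal.absNorm v.asIdeal) g → (mat (V ℓ) g⁻¹).trace = (a v : ℚ_[ℓ]))
    (C : ℝ) (hC : ∀ v, v ∉ B → (a v : ℝ) ^ 2 ≤ C * (Ideal.absNorm v.asIdeal : ℝ) ^ w)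
    -- most traces are divisible
    (θ : ℝ) (hθ : θ < 1 / (n : ℝ) ^ 2)
    (hdiv : ∃ᶠ x : ℕ in atTop, ({v : HeightOneSpectrum (𝓞 K) | Ideal.absNorm v.asIdeal ≤ x ∧
      ¬ (Ideal.absNorm v.asIdeal : ℤ) ^ w ∣ a v ^ 2}.ncard : ℝ) ≤ θ * Nat.primeCounting x) :
    Even w ∧ ∀ (v : HeightOneSpectrum (𝓞 K)) (Q : Ideal (𝓞 (AlgebraicClosure K))) (g : AbsGal K),
      LiesAbove v Q → FrobeniusAt Q (Ideal.absNorm v.asIdeal) g⁻¹ →
      ∃ P : ℤ[X], ∀ (ℓ : ℕ) [Fact ℓ.Prime], (ℓ : 𝓞 K) ∉ v.asIdeal → ∀ f : ℚ_[ℓ][X],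
        IsLocalFactor (V ℓ) Q g f ↔ f = P.map (Int.castRingHom ℚ_[ℓ]) := by
  have hn2 : (0 : ℝ) < (n : ℝ) ^ 2 := by positivity
  obtain ⟨u, φ, U, hw, hUn, hUo, hU, hφ⟩ := Pool.Agent.R401.Tr5.family hn V hV B hB a w (by
      rintro ℓ _ v hv hℓ g ⟨Q, hQ, hQv, hg⟩
      exact htr ℓ v hv hℓ Q ⟨hQ, hQv⟩ g hg) C hC θ ((lt_div_iff₀ hn2).1 hθ) (by
      refine (hdiv.and_eventually (Nat.tendsto_primeCounting.eventually_gt_atTop 0)).mono ?_
      rintro N ⟨h1, h3⟩
      have h4 : (0 : ℝ) < (Nat.primeCounting N : ℝ) := by exact_mod_cast h3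
      unfold Pool.Agent.W401.Cheb.dens
      rw [div_le_iff₀ h4]
      exact h1)
  refine ⟨⟨u, by rw [hw, two_mul]⟩, ?_⟩
  intro v Q g hQ hg
  have hq : 2 ≤ Ideal.absNorm v.asIdeal := by
    have h0 : Ideal.absNorm v.asIdeal ≠ 0 := fun h0 => v.ne_bot (Ideal.absNorm_eq_zero_iff.1 h0)
    have h1 : Ideal.absNorm v.asIdeal ≠ 1 := fun h1 =>
      v.isPrime.ne_top (Ideal.absNorm_eq_one_iff.1 h1)
    omega
  have hI : ∀ (ℓ : ℕ) [Fact ℓ.Prime] (x : Fin n → ℚ_[ℓ]), x ∈ invariants (V ℓ) Q ↔
      ∀ τ, Pool.Agent.W569.FM.InInertia Q τ → Pool.Agent.R401.Img.mt (V ℓ) τ *ᵥ x = x :=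
    fun ℓ _ x => Iff.rfl
  obtain ⟨P, hP⟩ := Pool.Agent.R401.Tr6.loc V hV u φ U hUn hUo hU hφ hQ.1 hq hg
    (fun ℓ _ => invariants (V ℓ) Q) hI
  rw [inv_inv] at hP
  refine ⟨P, ?_⟩
  intro ℓ _ hℓ f
  have hℓQ : (ℓ : 𝓞 (AlgebraicClosure K)) ∉ Q := by
    intro h
    apply hℓ
    rw [← hQ.2, Ideal.mem_comap, map_natCast]
    exact h
  constructor
  · rintro ⟨m, b, A, hA, rfl⟩
    exact hP ℓ hℓQ m b A hA
  · rintro rfl
    obtain ⟨m, b, A, hA⟩ := Pool.Agent.R401.Tr6.exists_basis (V ℓ) hq hg (hI ℓ)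
    rw [inv_inv] at hA
    exact ⟨m, b, A, hA, (hP ℓ hℓQ m b A hA).symm⟩

end Pool.Agent.Results.MP_898f40_nt.MostlySupersingular
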