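import Pool.Agent.R912.LI.Mat

set_option autoImplicit false
set_option linter.unusedSectionVars false
set_option linter.unusedVariables false

/-!
# Euler factors in one degree control Weil–Deligne representations

Fix a prime `p`. We show: if, for one integer `D`, the polynomials `det (1 - F T | H^D(X, ℚ_ℓ)^I)` have
integral coefficients independent of `ℓ ≠ p` for all smooth projective `X` over `ℚ`, then for all `X` and
all `n + m ≤ D + 1` the character of the Weil group of `ℚ_p` on the kernel of `N ^ m` in `H^n(X, ℚ_ℓ)`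
(`N` the monodromy operator) has rational values independent of `ℓ ≠ p`. In particular Q1 (in all degrees)
is equivalent to the independence of `ℓ` of these characters for all `X`, `n` and `m`, that is, of the
Frobenius-semisimple Weil–Deligne representations.

The proof. For a subgroup `U` of finite index of the Weil group `W`, which is the Weil group of a finite
extension `L` of `ℚ_p`, there is a number field `M` with `M ⊗ ℚ_p = L`, and `H^n(X × Spec M)` is the tensor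
product of `H^n(X)` and the permutation representation on `W / U`. If `U` is generated by `w` and an
open subgroup of the inertia group, the trace of `F^d(w)` on the invariants of inertia in this tensor
product is a multiple of the trace of `w` on the kernel of `N` (`Pool/Agent/R912/LI/Core.lean`). The
tensor product of a representation `V` with `H^1(E)` for a Tate curve `E` shifts the monodromy filtration:
the trace of `w` on the kernel of `N ^ m` in it is the trace of `w` on the kernel of `N ^ (m + 1)` in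
`V` plus `p ^ d(w)` times its trace on the kernel of `N ^ (m - 1)` in `V`
(`Pool/Agent/R912/LI/Mono.lean`). The product with an ordinary elliptic curve lowers the degree.
-/

open Module Polynomial Matrix

namespace Pool.Agent.Results.MP_898f40_nt.TateCurveTwists

open Pool.Agent.R912.LI Pool.Agent.R912.LI.FRep

/-- `ℓ`-adic cohomology of smooth projective varieties over `ℚ`, as representations of the Weil group
of `ℚ_p` (a geometric Frobenius has degree one). -/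
structure CohSystem (p : ℕ) where
  prime : p.Prime
  /-- the Weil group of `ℚ_p` -/
  G : WeilGroup
  /-- smooth projective varieties over `ℚ` (not necessarily connected) -/
  Var : Type
  /-- the Betti numbers -/
  b : Var → ℤ → ℕ
  /-- the action on `H^n(X ⊗ Q̄, ℚ_ℓ)`, in a basis -/
  H : (ℓ : Ell p) → (X : Var) → (n : ℤ) → Rep G ℓ.Q (b X n)
  /-- the coefficients of the Euler factors are algebraic integers (Deligne, SGA 7 XXI) -/
  integral : ∀ ℓ X n k (C : Matrix (Fin k) (Fin k) ℓ.Q),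
    OnSub (Inv G (H ℓ X n)) (H ℓ X n G.frob) C → ∀ i, IsIntegral ℤ (C.charpolyRev.coeff i)
  /-- an elliptic curve `E` over `ℚ` with split multiplicative reduction at `p`: `H^1(E)` has a basis
  `e₀, e₁` with `w e₀ = e₀` and `w e₁ = p ^ d(w) e₁ + c(w) e₀`, and `c` is not zero on any open subgroup
  of inertia -/
  c : (ℓ : Ell p) → G.W → ℓ.Q
  cocycle : ∀ ℓ, Cocycle G (p : ℓ.Q) (c ℓ)
  c_ne : ∀ ℓ, ∀ J ∈ G.inert, ∃ σ ∈ J, c ℓ σ ≠ 0
  /-- Grothendieck's monodromy theorem -/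
  monodromy : ∀ ℓ X n, ∃ N, Mono G (p : ℓ.Q) (c ℓ) (H ℓ X n) N
  /-- `X × E` -/
  timesTate : Var → Var
  kunneth_tate : ∀ ℓ X n, IsProdTate G (p : ℓ.Q) (c ℓ) (H ℓ (timesTate X) n) (H ℓ X n)
    (H ℓ X (n - 1)) (H ℓ X (n - 2))
  /-- the trace of Frobenius of an elliptic curve `E'` over `ℚ` with good ordinary reduction at `p` -/
  a : ℤ
  ordinary : ¬ (p : ℤ) ∣ a
  /-- `X × E'` -/
  timesOrd : Var → Var
  kunneth_ord : ∀ ℓ X n, IsProdOrd G (p : ℓ.Q) (a : ℓ.Q) (H ℓ (timesOrd X) n) (H ℓ X n)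
    (H ℓ X (n - 1)) (H ℓ X (n - 2))
  /-- `X × P^1` -/
  timesLine : Var → Var
  kunneth_line : ∀ ℓ X n, IsProdLine G (p : ℓ.Q) (H ℓ (timesLine X) n) (H ℓ X n) (H ℓ X (n - 2))
  /-- `X × Spec M`, for a number field `M` with `M ⊗ ℚ_p` the fixed field of `U` -/
  timesField : (U : Subgroup G.W) → Finite (G.W ⧸ U) → (∃ J ∈ G.inert, J ≤ U) → Var → Var
  kunneth_field : ∀ ℓ (U : Subgroup G.W) hf hU X n,
    IsProdField G U (H ℓ (timesField U hf hU X) n) (H ℓ X n)

namespace CohSystem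

variable {p : ℕ} (C : CohSystem p)

/-- Q1 for `X` in degree `n`: the polynomial `det (1 - F T | H^n(X)_ℓ^I)` has integral coefficients and
does not depend on `ℓ ≠ p` -/
def Q1 (X : C.Var) (n : ℤ) : Prop :=
  ∃ P : ℤ[X], ∀ ℓ : Ell p, ∃ (k : ℕ) (B : Matrix (Fin k) (Fin k) ℓ.Q),
    OnSub (Inv C.G (C.H ℓ X n)) (C.H ℓ X n C.G.frob) B ∧
      B.charpolyRev = P.map (Int.castRingHom ℓ.Q)

/-- the character of the Weil group on the kernel of `N ^ m` in `H^n(X)` has rational values, which do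
not depend on `ℓ ≠ p` -/
def WD (X : C.Var) (n : ℤ) (m : ℕ) : Prop :=
  ∀ w, ∃ r : ℚ, ∀ ℓ : Ell p, ∃ (k : ℕ) (B : Matrix (Fin k) (Fin k) ℓ.Q),
    OnSub (Ker C.G (C.H ℓ X n) m) (C.H ℓ X n w) B ∧ B.trace = (r : ℓ.Q)

/-- the representation on `H^n(X)` -/
noncomputable abbrev F (ℓ : Ell p) (X : C.Var) (n : ℤ) : FRep ℓ.Q C.G := toF (C.H ℓ X n)

theorem eulRat_of_Q1 {X : C.Var} {n : ℤ} (h : C.Q1 X n) : EulRat fun ℓ => C.F ℓ X n := by
  obtain ⟨P, hP⟩ := h
  refine eulRat_of_poly _ (Int.castRingHom ℚ) P fun ℓ => ?_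
  obtain ⟨k, B, h1, h2⟩ := hP ℓ
  rw [← eul_inv (C.H ℓ X n) h1, h2]
  congr 1

/-- in terms of traces of endomorphisms -/
theorem WD_iff {X : C.Var} {n : ℤ} {m : ℕ} :
    C.WD X n m ↔ ∀ w, IsRat fun ℓ => (C.F ℓ X n).tr m w := by
  constructor
  · intro h w
    obtain ⟨r, hr⟩ := h w
    refine ⟨r, fun ℓ => ?_⟩
    obtain ⟨k, B, h1, h2⟩ := hr ℓ
    rw [← h2, trace_ker (C.H ℓ X n) h1]
  · intro h w
    obtain ⟨r, hr⟩ := h w
    refine ⟨r, fun ℓ => ?_⟩
    obtain ⟨k, B, h1⟩ := exists_ker (C.H ℓ X n) m w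
    exact ⟨k, B, h1, (trace_ker (C.H ℓ X n) h1).trans (hr ℓ)⟩

theorem Q1_of_WD {X : C.Var} {n : ℤ} (h : C.WD X n 1) : C.Q1 X n := by
  obtain ⟨P, hP⟩ := intPoly_of_eulRat (fun ℓ => C.F ℓ X n)
    (fun ℓ i => by
      obtain ⟨k, B, h1⟩ := exists_inv (C.H ℓ X n)
      rw [← eul_inv (C.H ℓ X n) h1]
      exact C.integral ℓ X n k B h1 i)
    (eul_of_tr_one _ (C.WD_iff.1 h))
  refine ⟨P, fun ℓ => ?_⟩
  obtain ⟨k, B, h1⟩ := exists_inv (C.H ℓ X n)
  exact ⟨k, B, h1, (eul_inv (C.H ℓ X n) h1).trans (hP ℓ)⟩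

/-- the same for the elements of positive degree -/
def Pos (X : C.Var) (n : ℤ) (m : ℕ) : Prop := ∀ w, 0 < C.G.d w → IsRat fun ℓ => (C.F ℓ X n).tr m w

theorem WD_of_Pos {X : C.Var} {n : ℤ} {m : ℕ} (h : C.Pos X n m) : C.WD X n m :=
  C.WD_iff.2 (tr_all_of_pos _ m h)

/-- the powers of `p` -/
theorem isRat_pow (w : C.G.W) : IsRat fun ℓ : Ell p => (p : ℓ.Q) ^ C.G.d w :=
  ⟨(p : ℚ) ^ C.G.d w, fun ℓ => by rw [Rat.cast_zpow, Rat.cast_natCast]⟩

theorem pos_of_Q1 {D : ℤ} (h : ∀ X, C.Q1 X D) (X : C.Var) : C.Pos X D 1 := by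
  refine tr_one_of_itr (fun ℓ => C.F ℓ X D) fun U hf hU k => ?_
  refine (itr_of_eul _ (C.eulRat_of_Q1 (h (C.timesField U hf hU X))) k).congr fun ℓ => ?_
  exact (itr_iso (perm_isIso (C.kunneth_field ℓ U hf hU X D)) _).symm

theorem tr_line (ℓ : Ell p) (X : C.Var) (n : ℤ) (m : ℕ) (w : C.G.W) :
    (C.F ℓ (C.timesLine X) n).tr m w =
      (C.F ℓ X n).tr m w + (p : ℓ.Q) ^ C.G.d w * (C.F ℓ X (n - 2)).tr m w := by
  rw [tr_iso (line_isIso (cast_ne C.prime ℓ) (C.kunneth_line ℓ X n)), tr_prod, tr_twist]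

theorem tr_ord (ℓ : Ell p) (X : C.Var) (n : ℤ) (m : ℕ) (w : C.G.W) :
    (C.F ℓ (C.timesOrd X) n).tr m w = (C.F ℓ X n).tr m w +
      (unrRep C.G (p : ℓ.Q) (C.a : ℓ.Q) (cast_ne C.prime ℓ) w).trace * (C.F ℓ X (n - 1)).tr m w +
      (p : ℓ.Q) ^ C.G.d w * (C.F ℓ X (n - 2)).tr m w := by
  rw [tr_iso (ord_isIso (cast_ne C.prime ℓ) (C.kunneth_ord ℓ X n)), tr_prod, tr_prod, tr_twist,
    tr_tens]
  intro σ hσ
  have h := unrRep_apply C.G (p : ℓ.Q) (C.a : ℓ.Q) (cast_ne C.prime ℓ) (w := σ) (k := 0)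
    (by rw [hσ]; rfl)
  rw [h, pow_zero]

theorem tr_tateE (ℓ : Ell p) (X : C.Var) (n : ℤ) (m : ℕ) (w : C.G.W) (hw : 0 < C.G.d w) :
    (C.F ℓ (C.timesTate X) n).tr (m + 1) w = (C.F ℓ X n).tr (m + 1) w +
      ((C.F ℓ X (n - 1)).tr (m + 2) w + (p : ℓ.Q) ^ C.G.d w * (C.F ℓ X (n - 1)).tr m w) +
      (p : ℓ.Q) ^ C.G.d w * (C.F ℓ X (n - 2)).tr (m + 1) w := by
  obtain ⟨N, hN⟩ := C.monodromy ℓ X (n - 1)
  rw [tr_iso (tate_isIso (cast_ne C.prime ℓ) (C.cocycle ℓ) (C.kunneth_tate ℓ X n)), tr_prod, tr_prod,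
    tr_twist, tr_tate (cast_ne C.prime ℓ) (C.cocycle ℓ) (C.c_ne ℓ)
      (Mono.isMono (C.H ℓ X (n - 1)) hN) w ?_ m]
  obtain ⟨k, hk⟩ := Int.eq_ofNat_of_zero_le hw.le
  have hk0 : k ≠ 0 := by
    rintro rfl
    rw [hk] at hw
    exact absurd hw (by simp)
  rw [hk]
  intro h
  have h1 : ((p ^ k : ℕ) : ℓ.Q) = ((1 : ℕ) : ℓ.Q) := by
    rw [Nat.cast_pow, Nat.cast_one]
    simpa using h
  have h2 : p ^ k = 1 := Nat.cast_injective h1
  have h3 := Nat.one_lt_pow hk0 C.prime.one_lt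
  omega

/-- the trace of a power of Frobenius of the ordinary elliptic curve -/
theorem trace_ord (w : C.G.W) (hw : 0 < C.G.d w) : ∃ s : ℚ, s ≠ 0 ∧ ∀ ℓ : Ell p,
    (unrRep C.G (p : ℓ.Q) (C.a : ℓ.Q) (cast_ne C.prime ℓ) w).trace = (s : ℓ.Q) := by
  obtain ⟨k, hk⟩ := Int.eq_ofNat_of_zero_le (show 0 ≤ C.G.d w - 1 by omega)
  have hk' : C.G.d w = ((k + 1 : ℕ) : ℤ) := by push_cast; omega
  refine ⟨(((comp2 (p : ℤ) C.a) ^ (k + 1)).trace : ℤ),
    Int.cast_ne_zero.2 (comp2_trace_ne C.prime C.ordinary k), fun ℓ => ?_⟩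
  rw [unrRep_apply C.G _ _ _ hk', Rat.cast_intCast]
  have h1 := comp2_map (Int.castRingHom ℓ.Q) (p : ℤ) C.a
  have h2 := Matrix.map_pow (comp2 (p : ℤ) C.a) (Int.castRingHom ℓ.Q) (k + 1)
  have h3 : (Int.castRingHom ℓ.Q) (p : ℤ) = (p : ℓ.Q) := by simp
  have h4 : (Int.castRingHom ℓ.Q) C.a = (C.a : ℓ.Q) := by simp
  rw [h3, h4] at h1
  rw [h1] at h2
  rw [← h2, Matrix.trace, Matrix.trace, Int.cast_sum]
  rfl

/-- lowering the degree -/
theorem pos_lower {n : ℤ} {m : ℕ} (h : ∀ X, C.Pos X n m) :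
    (∀ X, C.Pos X (n - 2) m) ∧ ∀ X, C.Pos X (n - 1) m := by
  have h2 : ∀ X, C.Pos X (n - 2) m := by
    intro X w hw
    refine IsRat.cancel (c := (p : ℚ) ^ C.G.d w) (zpow_ne_zero _ (Nat.cast_ne_zero.2
      C.prime.ne_zero)) ?_
    refine ((h (C.timesLine X) w hw).sub (h X w hw)).congr fun ℓ => ?_
    rw [tr_line, Rat.cast_zpow, Rat.cast_natCast]
    ring
  refine ⟨h2, fun X w hw => ?_⟩
  obtain ⟨s, hs, hs'⟩ := C.trace_ord w hw
  refine IsRat.cancel hs ?_
  refine (((h (C.timesOrd X) w hw).sub (h X w hw)).sub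
    ((C.isRat_pow w).mul (h2 X w hw))).congr fun ℓ => ?_
  rw [tr_ord, ← hs' ℓ]
  ring

theorem pos_le {D : ℤ} {m : ℕ} (h : ∀ X, C.Pos X D m) (k : ℕ) : ∀ X, C.Pos X (D - k) m := by
  induction k with
  | zero => simpa using h
  | succ k ih =>
    have h1 := (C.pos_lower ih).2
    have h2 : D - (k : ℤ) - 1 = D - ((k + 1 : ℕ) : ℤ) := by push_cast; ring
    rw [h2] at h1
    exact h1

/-- the induction on `m` -/
theorem pos_all {D : ℤ} (h : ∀ X, C.Q1 X D) (m : ℕ) :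
    (∀ X (n : ℤ), n + m ≤ D + 1 → C.Pos X n m) ∧
      ∀ X (n : ℤ), n + (m + 1 : ℕ) ≤ D + 1 → C.Pos X n (m + 1) := by
  induction m with
  | zero =>
    constructor
    · intro X n _ w _
      exact (isRat_const 0).congr fun ℓ => by rw [tr_zero, Rat.cast_zero]
    · intro X n hn
      obtain ⟨k, hk⟩ := Int.eq_ofNat_of_zero_le (show 0 ≤ D - n by push_cast at hn; omega)
      have h1 := C.pos_le (C.pos_of_Q1 h) k X
      have h2 : D - (k : ℤ) = n := by rw [← hk]; ring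
      rw [h2] at h1
      exact h1
  | succ m ih =>
    refine ⟨ih.2, fun X n hn w hw => ?_⟩
    push_cast at hn
    have e1 : n + 1 - 1 = n := by ring
    have e2 : n + 1 - 2 = n - 1 := by ring
    have h1 := ih.2 (C.timesTate X) (n + 1) (by push_cast; omega) w hw
    have h2 := ih.2 X (n + 1) (by push_cast; omega) w hw
    have h3 := ih.2 X (n - 1) (by push_cast; omega) w hw
    have h4 := ih.1 X n (by omega) w hw
    refine (((h1.sub h2).sub ((C.isRat_pow w).mul h4)).sub ((C.isRat_pow w).mul h3)).congr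
      fun ℓ => ?_
    rw [tr_tateE C ℓ X (n + 1) m w hw, e1, e2]
    ring

end CohSystem

/-- **Euler factors in one degree control Weil–Deligne representations.**
(1) If Q1 holds in degree `D` for all `X`, then for all `X` and all `n + m ≤ D + 1` the character of the
Weil group on the kernel of `N ^ m` in `H^n(X)` is rational and independent of `ℓ`.
(2) Conversely, if this holds for `X`, `n` and `m = 1`, then Q1 holds for `X` in degree `n`.
(3) So Q1 for all `X` and all degrees is equivalent to the rationality and independence of `ℓ` of all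
these characters. -/
theorem result {p : ℕ} (C : CohSystem p) :
    (∀ D : ℤ, (∀ X, C.Q1 X D) → ∀ X (n : ℤ) (m : ℕ), n + m ≤ D + 1 → C.WD X n m) ∧
      (∀ X n, C.WD X n 1 → C.Q1 X n) ∧
      ((∀ X n, C.Q1 X n) ↔ ∀ X n m, C.WD X n m) := by
  have h1 : ∀ D : ℤ, (∀ X, C.Q1 X D) → ∀ X (n : ℤ) (m : ℕ), n + m ≤ D + 1 → C.WD X n m :=
    fun D h X n m hn => C.WD_of_Pos ((C.pos_all h m).1 X n hn)
  refine ⟨h1, fun X n h => C.Q1_of_WD h, fun h X n m => ?_, fun h X n => C.Q1_of_WD (h X n 1)⟩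
  exact h1 (n + m) (fun X => h X _) X n m (by omega)

end Pool.Agent.Results.MP_898f40_nt.TateCurveTwists
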