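import Pool.Agent.R696.TF.Integ

/-!
# Integrality and independence of `ℓ` of local Euler factors, and trilinear forms

Let `p` be a prime number, `D` a decomposition group at `p` in the absolute Galois group of `ℚ`, `I` its
inertia subgroup and `φ` a geometric Frobenius. Let `𝓜` be the category of motives over `ℚ` for
absolute Hodge cycles, which is abelian and semisimple (Deligne), with its `ℓ`-adic realizations for
all primes `ℓ` (`Realizations`). For every separated scheme `X` of finite type over `ℚ` let `H_i(X)(-j)`
be the sum of the graded pieces `gr^W_w` of its Borel-Moore homology, twisted; these are objects of `𝓜`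
by the construction of Deligne of the weight filtration from smooth projective varieties (Jannsen),
and the long exact sequences of mixed realizations of a closed subscheme and its complement give long
exact sequences of the graded pieces in `𝓜` (`Homology`; for all the fields of this structure see
`Pool/Agent/R696/TF/Cat.lean`). If `X` is smooth and projective of dimension `d`, then `H_i(X)(-d)` is
`H^(2d-i)(X)`.

`EulerIndependent V p I φ A` (`Pool/Agent/R696/TF/Inv.lean`) says that the characteristic polynomial of
`φ` on `V_ℓ(A)^I`, which is `det(1 - T φ)` with the coefficients in reverse order, is in `ℚ[T]` and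
the same for all primes `ℓ ≠ p`. `IndependentOn` says this for all submotives `A` of all `H_i(X)(-j)`.
`IntegralAt V p I φ M` says that it is moreover in `ℤ[T]`, for `A = M`; for `M = H^i(X)` this is Q1 for
`X`, `i` and `p`. It is known that the eigenvalues of `φ` on `V_ℓ(H^i(X))^I` are algebraic integers for
each `ℓ ≠ p` (`RootsIntegral`; SGA 7 XXI).

Let `S` be the class of the smooth projective schemes. By resolution of singularities every smooth `X`
of dimension at most `d` is birational to a member of `S` of dimension at most `d` (`Models`). By the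
theorem of Grothendieck on abelian varieties `IndependentOn` holds for smooth projective curves, the
submotives of `h^1` being given by abelian subvarieties of the Jacobian (`hlow`).

The hypersurface of a trilinear form `T` over `ℚ` is the affine cubic hypersurface `T(x, y, z) = 1`
(`hypS T`), `x`, `y`, `z` being three blocks of variables of any sizes. It is smooth.
-/

set_option autoImplicit false

open CategoryTheory AlgebraicGeometry Pool.Agent.R696.TF Pool.Agent.Y116.UV

namespace Pool.Agent.Results.MP_898f40_nt.TrilinearForms

universe u v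

section

variable {𝓜 : Type u} [Category.{v} 𝓜] [Abelian 𝓜] {D : Type} [Group D]

/-- The Euler factors at `p` of all submotives of the homology of `X` have rational coefficients and
are independent of `ℓ`. -/
def IndependentOn (V : Realizations 𝓜 D) (p : ℕ) (I : Subgroup D) [I.Normal] (φ : D)
    (H : Homology ℚ 𝓜) (X : Sch ℚ) : Prop :=
  ∀ (i j : ℤ) (A : 𝓜) (f : A ⟶ H.obj i j X) [Mono f], EulerIndependent V p I φ A

/-- The characteristic polynomial of `φ` on the vectors of the `ℓ`-adic realization of `M` which are
fixed by `I`, for all primes `ℓ ≠ p`, is one polynomial with integral coefficients. -/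
def IntegralAt (V : Realizations 𝓜 D) (p : ℕ) (I : Subgroup D) [I.Normal] (φ : D) (M : 𝓜) : Prop :=
  ∃ Z : Polynomial ℤ, ∀ (ℓ : ℕ) [Fact ℓ.Prime], ℓ ≠ p →
    (frobOn (V.ρ ℓ M) I φ).charpoly = Z.map (algebraMap ℤ ℚ_[ℓ])

theorem integral_of (V : Realizations 𝓜 D) (p : ℕ) (I : Subgroup D) [I.Normal] (φ : D) {M : 𝓜}
    (h : EulerIndependent V p I φ M)
    (hi : ∃ (ℓ : ℕ) (_ : Fact ℓ.Prime), ℓ ≠ p ∧ RootsIntegral (frobOn (V.ρ ℓ M) I φ).charpoly) :
    IntegralAt V p I φ M := by
  obtain ⟨Q, hQ⟩ := h
  obtain ⟨l, _, hl, hr⟩ := hi
  rw [hQ l hl] at hr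
  have hm : Q.Monic := by
    have h1 : (Q.map (algebraMap ℚ ℚ_[l])).Monic := by
      rw [← hQ l hl]
      exact LinearMap.charpoly_monic _
    exact Polynomial.monic_of_injective (algebraMap ℚ ℚ_[l]).injective h1
  obtain ⟨Z, hZ⟩ := exists_int hm hr
  refine ⟨Z, fun ℓ _ hℓ => ?_⟩
  rw [hQ ℓ hℓ, ← hZ, Polynomial.map_map]
  congr 1

/-- For all submotives `M` of the homology of `X` with eigenvalues of `φ` on `V_ℓ(M)^I` which are
algebraic integers for one `ℓ ≠ p`, the characteristic polynomial is in `ℤ[T]` and independent
of `ℓ`. -/
def QuestionOn (V : Realizations 𝓜 D) (p : ℕ) (I : Subgroup D) [I.Normal] (φ : D)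
    (H : Homology ℚ 𝓜) (X : Sch ℚ) : Prop :=
  ∀ (i j : ℤ) (M : 𝓜) (f : M ⟶ H.obj i j X) [Mono f],
    (∃ (ℓ : ℕ) (_ : Fact ℓ.Prime), ℓ ≠ p ∧ RootsIntegral (frobOn (V.ρ ℓ M) I φ).charpoly) →
      IntegralAt V p I φ M

theorem question_of {V : Realizations 𝓜 D} {p : ℕ} {I : Subgroup D} [I.Normal] {φ : D}
    {H : Homology ℚ 𝓜} {X : Sch ℚ} (h : IndependentOn V p I φ H X) : QuestionOn V p I φ H X :=
  fun i j M f _ => integral_of V p I φ (h i j M f)

/-- `P` for the hypersurfaces `T(x, y, z) = 1` of all trilinear forms `T` over `ℚ` -/
def Trilinear (P : Sch ℚ → Prop) : Prop :=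
  ∀ (a b c : ℕ) (T : Fin a → Fin b → Fin c → ℚ), P (hypS T)

/-- `P` for the hypersurfaces `T(x, y, z) = 1` of all trilinear forms `T` over `ℚ` with a block of at
most `m` variables -/
def Blocks (P : Sch ℚ → Prop) (m : ℕ) : Prop :=
  ∀ (a b c : ℕ) (T : Fin a → Fin b → Fin c → ℚ), (a ≤ m ∨ b ≤ m ∨ c ≤ m) → P (hypS T)

/-- `P` for all schemes in `S` -/
def Class (S P : Sch ℚ → Prop) : Prop := ∀ X : Sch ℚ, FT True X → S X → P X

/-- `P` for all schemes in `S` of dimension at most `d` -/
def ClassDim (S P : Sch ℚ → Prop) (d : ℕ) : Prop :=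
  ∀ X : Sch ℚ, FT True X → S X → topologicalKrullDim X.left ≤ d → P X

end

/-- **Euler factors and trilinear forms.** Let `p` be a prime.
1. The following are equivalent: independence of `ℓ` at `p` for the submotives of the smooth
   projective schemes; for the submotives of the homology of all schemes; for the submotives of the
   homology of the hypersurfaces `T(x, y, z) = 1` of all trilinear forms over `ℚ`. If this holds, then
   Q1 holds at `p`: the Euler factors of all submotives `M` of `H^i(X)`, `X` smooth and projective,
   with eigenvalues which are algebraic integers for one `ℓ` (known for `M = H^i(X)`), are in `ℤ[T]`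
   and independent of `ℓ`.
2. For every `d` the following are equivalent: independence of `ℓ` at `p` for the submotives of the
   smooth projective schemes of dimension at most `d`; for all schemes of dimension at most `d`; for
   the hypersurfaces of the trilinear forms with a block of at most `d + 2` variables. If this holds,
   then so does Q1 at `p` for the smooth projective schemes of dimension at most `d`.
3. Independence of `ℓ` at `p` holds for the hypersurfaces of the trilinear forms with a block of at
   most three variables, with integral Euler factors of all submotives `M` with eigenvalues which are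
   algebraic integers for one `ℓ`.
4. The hypersurfaces are smooth. -/
theorem result (p : ℕ) (D : Type) [Group D] (I : Subgroup D) [I.Normal] (φ : D)
    (𝓜 : Type u) [Category.{v} 𝓜] [Abelian 𝓜] (hs : Semisimple 𝓜) (V : Realizations 𝓜 D)
    (H : Homology ℚ 𝓜) (S : Sch ℚ → Prop) (hpoint : S (aff ℚ ℚ)) (hS : Models S)
    (hlow : ClassDim S (IndependentOn V p I φ H) 1) :
    ([Class S (IndependentOn V p I φ H), Class (fun _ => True) (IndependentOn V p I φ H),
      Trilinear (IndependentOn V p I φ H)].TFAE ∧
      (Trilinear (IndependentOn V p I φ H) → Class S (QuestionOn V p I φ H))) ∧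
    (∀ d : ℕ, [ClassDim S (IndependentOn V p I φ H) d,
      ClassDim (fun _ => True) (IndependentOn V p I φ H) d,
      Blocks (IndependentOn V p I φ H) (d + 2)].TFAE ∧
      (Blocks (IndependentOn V p I φ H) (d + 2) → ClassDim S (QuestionOn V p I φ H) d)) ∧
    Blocks (fun X => IndependentOn V p I φ H X ∧ QuestionOn V p I φ H X) 3 ∧
    Trilinear (fun X => Smooth X.hom) := by
  obtain ⟨h1, h2, h3⟩ := main_her hs (euler_sumClosed V p I φ) H S hpoint hS 1 hlow
  have g1 : Class S (IndependentOn V p I φ H) ↔ Trilinear (IndependentOn V p I φ H) := h1.out 0 2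
  have g1' : Class (fun _ => True) (IndependentOn V p I φ H) ↔
      Trilinear (IndependentOn V p I φ H) := by
    have h4 : (∀ X : Sch ℚ, FT True X → IndependentOn V p I φ H X) ↔
      Trilinear (IndependentOn V p I φ H) := h1.out 1 2
    exact ⟨fun h => h4.1 fun X hX => h X hX trivial, fun h X hX _ => h4.2 h X hX⟩
  have g2 : ∀ d : ℕ, ClassDim S (IndependentOn V p I φ H) d ↔
      Blocks (IndependentOn V p I φ H) (d + 2) := fun d => (h2 d).out 0 2
  have g2' : ∀ d : ℕ, ClassDim (fun _ => True) (IndependentOn V p I φ H) d ↔
      Blocks (IndependentOn V p I φ H) (d + 2) := by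
    intro d
    have h4 : (∀ X : Sch ℚ, FT True X → topologicalKrullDim X.left ≤ d →
        IndependentOn V p I φ H X) ↔ Blocks (IndependentOn V p I φ H) (d + 2) := (h2 d).out 1 2
    exact ⟨fun h => h4.1 fun X hX hd => h X hX trivial hd, fun h X hX _ hd => h4.2 h X hX hd⟩
  refine ⟨⟨?_, fun h X hX hSX => question_of (g1.2 h X hX hSX)⟩,
    fun d => ⟨?_, fun h X hX hSX hd => question_of ((g2 d).2 h X hX hSX hd)⟩,
    fun a b c T hT => ⟨h3 a b c T hT, question_of (h3 a b c T hT)⟩,
    fun _ _ _ _ => Pool.Agent.Z125.UN.smooth_hypS _⟩
  · tfae_have 1 ↔ 3 := g1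
    tfae_have 2 ↔ 3 := g1'
    tfae_finish
  · tfae_have 1 ↔ 3 := g2 d
    tfae_have 2 ↔ 3 := g2' d
    tfae_finish

end Pool.Agent.Results.MP_898f40_nt.TrilinearForms
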